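import Pool.Agent.X160.Mwc

/-!
# MP_952ea4_co: the Mani-Walkup complex has no polytopal completion

`maniWalkup` is the complex `K` exactly as printed in the problem file; `maniWalkupSym` is the
symmetric variant in which `dmrq, dmrs` are replaced by `dmnq, dmns`.  For both, no simplicial
complex containing it is isomorphic to the boundary complex of a convex 4-polytope.

Proof: such a polytope would give 12 points of `ℝ⁴` for which the signs of the determinants
`(f, g, h, i, u)` are nonzero and independent of `u` for each tetrahedron `fghi` of `K`.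
Propagating signs through the three term Grassmann-Plücker relations gives a contradiction
(certificates checked by the verified checker of `Pool.Agent.X160.Mwa`).
-/

namespace Pool.Agent.Results.MP_952ea4_co.NoPolytopalCompletion

open Pool.Agent.X160.Mw

/-- The 12 vertices of `K`. -/
inductive Vtx | a | b | c | d | m | n | o | p | q | r | s | t
  deriving DecidableEq

open Vtx

/-- The 26 tetrahedra of `K`, in the order of the problem file. -/
def maniWalkup : List (Finset Vtx) :=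
  [{a, b, c, d}, {a, b, c, r}, {a, c, d, r}, {a, b, d, t}, {b, c, d, t}, {a, b, m, r},
   {b, c, n, r}, {c, d, o, r}, {d, a, p, r}, {a, b, m, t}, {b, c, n, t}, {c, d, o, t},
   {d, a, p, t},
   {m, n, o, p}, {m, n, o, q}, {m, o, p, q}, {n, o, p, s}, {m, n, p, s}, {a, n, o, q},
   {b, o, p, q}, {c, p, m, q}, {d, m, r, q}, {a, n, o, s}, {b, o, p, s}, {c, p, m, s},
   {d, m, r, s}]

/-- The symmetric variant: `dmnq`, `dmns` in place of `dmrq`, `dmrs`. -/
def maniWalkupSym : List (Finset Vtx) :=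
  [{a, b, c, d}, {a, b, c, r}, {a, c, d, r}, {a, b, d, t}, {b, c, d, t}, {a, b, m, r},
   {b, c, n, r}, {c, d, o, r}, {d, a, p, r}, {a, b, m, t}, {b, c, n, t}, {c, d, o, t},
   {d, a, p, t},
   {m, n, o, p}, {m, n, o, q}, {m, o, p, q}, {n, o, p, s}, {m, n, p, s}, {a, n, o, q},
   {b, o, p, q}, {c, p, m, q}, {d, m, n, q}, {a, n, o, s}, {b, o, p, s}, {c, p, m, s},
   {d, m, n, s}]

/-- `T` contains (a copy of) the complex with the facets `K` as a subcomplex. -/
def ContainsComplex {α : Type*} (T : AbstractSimplicialComplex α) (K : List (Finset Vtx)) : Prop :=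
  ∃ κ : Vtx ↪ α, ∀ σ ∈ K, σ.map κ ∈ T

/-- `T` is combinatorially isomorphic to the boundary complex of a convex 4-polytope: there are
a finite set `V` in `ℝ⁴`, which is the vertex set of the full-dimensional polytope `conv V`, and
a bijection `φ` from the vertices of `T` to `V`, such that a nonempty set `s` is a face of `T`
exactly if `φ '' s` is the vertex set of a proper face of `conv V`. -/
def IsPolytopal {α : Type*} (T : AbstractSimplicialComplex α) : Prop :=
  ∃ (V : Finset (Fin 4 → ℝ)) (φ : α → Fin 4 → ℝ),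
    (convexHull ℝ (V : Set (Fin 4 → ℝ))).extremePoints ℝ = V ∧
    (interior (convexHull ℝ (V : Set (Fin 4 → ℝ)))).Nonempty ∧
    Function.Injective φ ∧ Set.range φ = V ∧
    ∀ s : Finset α, s.Nonempty →
      (s ∈ T ↔ ∃ F : Set (Fin 4 → ℝ), IsExposed ℝ (convexHull ℝ (V : Set (Fin 4 → ℝ))) F ∧
        F ≠ convexHull ℝ (V : Set (Fin 4 → ℝ)) ∧ (V : Set (Fin 4 → ℝ)) ∩ F = φ '' (s : Set α))

/-- nonempty faces are exposed in homogeneous coordinates -/
theorem exposes_of_face {α : Type*} (T : AbstractSimplicialComplex α)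
    (V : Finset (Fin 4 → ℝ)) (φ : α → Fin 4 → ℝ)
    (hinj : Function.Injective φ) (hran : Set.range φ = V)
    (hfaces : ∀ s : Finset α, s.Nonempty →
      (s ∈ T ↔ ∃ F : Set (Fin 4 → ℝ), IsExposed ℝ (convexHull ℝ (V : Set (Fin 4 → ℝ))) F ∧
        F ≠ convexHull ℝ (V : Set (Fin 4 → ℝ)) ∧ (V : Set (Fin 4 → ℝ)) ∩ F = φ '' (s : Set α)))
    (κ : Vtx ↪ α) (τ : Finset Vtx) (hτ : τ.Nonempty) (hT : τ.map κ ∈ T) :
    ∃ l, Exposes (fun x => φ (κ x)) (τ : Set Vtx) l := by
  obtain ⟨F, hF, -, hVF⟩ := (hfaces _ (by simpa using hτ)).mp hT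
  have hmemV : ∀ x, φ (κ x) ∈ (V : Set (Fin 4 → ℝ)) := by
    intro x
    rw [← hran]
    exact ⟨_, rfl⟩
  have hmem : ∀ x, φ (κ x) ∈ F ↔ x ∈ τ := by
    intro x
    have h1 : φ (κ x) ∈ (V : Set (Fin 4 → ℝ)) ∩ F ↔ φ (κ x) ∈ F :=
      ⟨fun h => h.2, fun h => ⟨hmemV x, h⟩⟩
    rw [← h1, hVF, hinj.mem_set_image]
    simp
  obtain ⟨x0, hx0⟩ := hτ
  obtain ⟨l, hl⟩ := hF ⟨_, (hmem x0).mpr hx0⟩
  have hP : ∀ x, φ (κ x) ∈ convexHull ℝ (V : Set (Fin 4 → ℝ)) :=
    fun x => subset_convexHull ℝ _ (hmemV x)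
  have hx0F : φ (κ x0) ∈ F := (hmem x0).mpr hx0
  rw [hl] at hx0F
  have hval : ∀ y : Fin 4 → ℝ, dotProduct (hom y)
      (Fin.cons (l (φ (κ x0))) (fun j => - l (Pi.single j 1)) : Fin 5 → ℝ)
      = l (φ (κ x0)) - l y := by
    intro y
    have hy : l y = ∑ j, y j * l (Pi.single j 1) := by
      have h1 : y = ∑ j, y j • (Pi.single j 1 : Fin 4 → ℝ) := by
        ext i
        simp [Finset.sum_apply, Pi.single_apply]
      conv_lhs => rw [h1]
      rw [map_sum]
      simp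
    rw [hy]
    simp only [dotProduct, hom, Fin.sum_univ_succ (n := 4), Fin.cons_zero, Fin.cons_succ,
      mul_neg, Finset.sum_neg_distrib]
    ring
  refine ⟨(Fin.cons (l (φ (κ x0))) (fun j => - l (Pi.single j 1)) : Fin 5 → ℝ), ?_, ?_⟩
  · intro x hx
    rw [hval]
    have hxF : φ (κ x) ∈ F := (hmem x).mpr (by simpa using hx)
    rw [hl] at hxF
    have h1 := hx0F.2 _ (hP x)
    have h2 := hxF.2 _ (hP x0)
    linarith
  · intro x hx
    rw [hval]
    have hxF : φ (κ x) ∉ F := fun h => hx (by simpa using (hmem x).mp h)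
    rw [hl] at hxF
    have h3 : ∃ y ∈ convexHull ℝ (V : Set (Fin 4 → ℝ)), l (φ (κ x)) < l y := by
      by_contra hcon
      push Not at hcon
      exact hxF ⟨hP x, hcon⟩
    obtain ⟨y, hy, hy2⟩ := h3
    have := hx0F.2 y hy
    linarith

/-- the vertex with a given number -/
def ofN : ℕ → Vtx
  | 0 => a
  | 1 => b
  | 2 => c
  | 3 => d
  | 4 => m
  | 5 => n
  | 6 => o
  | 7 => p
  | 8 => q
  | 9 => r
  | 10 => s
  | _ => t

/-- the number list `fac` matches the facet list `K` -/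
def Matches (fac : List (ℕ × ℕ × ℕ × ℕ)) (K : List (Finset Vtx)) : Prop :=
  ∀ x ∈ fac, ({ofN x.1, ofN x.2.1, ofN x.2.2.1, ofN x.2.2.2} : Finset Vtx) ∈ K ∧
    (ofN x.1 ≠ ofN x.2.1 ∧ ofN x.1 ≠ ofN x.2.2.1 ∧ ofN x.1 ≠ ofN x.2.2.2 ∧
      ofN x.2.1 ≠ ofN x.2.2.1 ∧ ofN x.2.1 ≠ ofN x.2.2.2 ∧ ofN x.2.2.1 ≠ ofN x.2.2.2) ∧
    (x.1 < 12 ∧ x.2.1 < 12 ∧ x.2.2.1 < 12 ∧ x.2.2.2 < 12)

instance (fac : List (ℕ × ℕ × ℕ × ℕ)) (K : List (Finset Vtx)) : Decidable (Matches fac K) := by
  unfold Matches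
  infer_instance

theorem matches1 : Matches fac1 maniWalkup := by decide +kernel

theorem matches2 : Matches fac2 maniWalkupSym := by decide +kernel

theorem ofN_inj : ∀ i < 12, ∀ j < 12, i ≠ j → ofN i ≠ ofN j := by decide +kernel

theorem facetHyp_of {α : Type*} (T : AbstractSimplicialComplex α) (K : List (Finset Vtx))
    (fac : List (ℕ × ℕ × ℕ × ℕ)) (hm : Matches fac K) (hK : ContainsComplex T K)
    (hP : IsPolytopal T) : ∃ v : ℕ → Fin 5 → ℝ, FacetHyp v fac := by
  obtain ⟨κ, hκ⟩ := hK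
  obtain ⟨V, φ, -, -, hinj, hran, hfaces⟩ := hP
  have hex : ∀ τ : Finset Vtx, τ.Nonempty → (∃ σ ∈ K, τ ⊆ σ) →
      ∃ l, Exposes (fun x => φ (κ x)) (τ : Set Vtx) l := by
    intro τ hτ ⟨σ, hσ, hτσ⟩
    refine exposes_of_face T V φ hinj hran hfaces κ τ hτ ?_
    have h1 : σ.map κ ∈ T := hκ σ hσ
    exact (T.isRelLowerSet_faces h1).2 (Finset.map_subset_map.mpr hτσ) (by simpa using hτ)
  refine ⟨fun k => hom (φ (κ (ofN k))), ?_⟩
  intro f g h i hmem u w hu hw hu' hw'
  obtain ⟨hσ, ⟨n1, n2, n3, n4, n5, n6⟩, b1, b2, b3, b4⟩ := hm _ hmem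
  simp only at hσ n1 n2 n3 n4 n5 n6 b1 b2 b3 b4
  have e1 := hex {ofN f} (by simp) ⟨_, hσ, by intro x; simp; tauto⟩
  have e2 := hex {ofN f, ofN g} (by simp) ⟨_, hσ, by intro x; simp; tauto⟩
  have e3 := hex {ofN f, ofN g, ofN h} (by simp) ⟨_, hσ, by intro x; simp; tauto⟩
  have e4 := hex {ofN f, ofN g, ofN h, ofN i} (by simp) ⟨_, hσ, fun x hx => hx⟩
  simp only [Finset.coe_insert, Finset.coe_singleton] at e1 e2 e3 e4
  exact facet_pos (fun x => φ (κ x)) (ofN f) (ofN g) (ofN h) (ofN i) n1 n2 n3 n4 n5 n6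
    e1 e2 e3 e4 (ofN u) (ofN w)
    (ofN_inj u hu f b1 hu'.1) (ofN_inj u hu g b2 hu'.2.1) (ofN_inj u hu h b3 hu'.2.2.1)
    (ofN_inj u hu i b4 hu'.2.2.2)
    (ofN_inj w hw f b1 hw'.1) (ofN_inj w hw g b2 hw'.2.1) (ofN_inj w hw h b3 hw'.2.2.1)
    (ofN_inj w hw i b4 hw'.2.2.2)

/-- **The Mani-Walkup complex has no polytopal completion.**  No simplicial complex `T` that
contains `K` (as printed, or in the symmetric version) as a subcomplex is isomorphic to the
boundary complex of a convex 4-polytope.  In particular this holds for every triangulation `T`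
of the 3-sphere. -/
theorem result :
    (∀ {α : Type*} (T : AbstractSimplicialComplex α),
      ContainsComplex T maniWalkup → ¬ IsPolytopal T) ∧
    (∀ {α : Type*} (T : AbstractSimplicialComplex α),
      ContainsComplex T maniWalkupSym → ¬ IsPolytopal T) := by
  refine ⟨fun T hT hP => ?_, fun T hT hP => ?_⟩
  · obtain ⟨v, hv⟩ := facetHyp_of T _ fac1 matches1 hT hP
    exact no_fac1 v hv
  · obtain ⟨v, hv⟩ := facetHyp_of T _ fac2 matches2 hT hP
    exact no_fac2 v hv

end Pool.Agent.Results.MP_952ea4_co.NoPolytopalCompletion
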